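import Pool.Agent.Helper76.Bq.WoQ
import Pool.Agent.Helper79.S7.StE

/-!
# Levels `p^n`: transport of integral symbols, words in the `T_l`, `l ≠ p`
-/

set_option autoImplicit false

namespace Pool.Agent.Helper76.Bq

open Pool.Agent.Helper14.CV (Homog EqC act Tl)
open Pool.Agent.Helper28.WK (SymP Ok)
open Pool.Agent.Helper79.S7 (OkC)
open Pool.Agent.Helper76.TL.Wo (Gi)

namespace G1

private lemma p_or {p : ℕ} (hp : 0 < p) (r : ℕ) {x y : ℤ} (h : x ≠ 0 ∨ y ≠ 0) :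
    ((p : ℤ) ^ r * x ≠ 0 ∨ y ≠ 0) := by
  rcases h with h0 | h0
  · exact Or.inl (mul_ne_zero (pow_ne_zero r (by exact_mod_cast hp.ne')) h0)
  · exact Or.inr h0

/-- The transported symbol has level `p^(r+s)`. -/
theorem sym_Gi {p : ℕ} (hp : 0 < p) {r s : ℕ} {G : ℤ → ℤ → ℤ} (h : SymP p r s G) :
    SymP p 0 (r + s) (Gi p r G) := by
  refine ⟨?_, ?_⟩
  · intro k x y hk hxy
    have e := h.1 k ((p : ℤ) ^ r * x) y hk (p_or hp r hxy)
    have e1 : (p : ℤ) ^ r * (k * x) = k * ((p : ℤ) ^ r * x) := by ring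
    simp only [Gi]
    rw [e1, e]
  · intro a b c d hdet _ hc
    obtain ⟨c', hc'⟩ := hc
    obtain ⟨k, hk⟩ := h.2 a ((p : ℤ) ^ r * b) ((p : ℤ) ^ s * c') d
      (by rw [← hdet, hc', pow_add]; ring) (Dvd.intro _ rfl) (Dvd.intro _ rfl)
    refine ⟨k, ?_⟩
    intro x y hxy
    have e := hk ((p : ℤ) ^ r * x) y (p_or hp r hxy)
    simp only [act, Gi] at e ⊢
    have e1 : (p : ℤ) ^ r * (a * x + b * y) = a * ((p : ℤ) ^ r * x) + (p : ℤ) ^ r * b * y := by ring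
    have e2 : c * x + d * y = (p : ℤ) ^ s * c' * ((p : ℤ) ^ r * x) + d * y := by
      rw [hc', pow_add]
      ring
    rw [e1, e2]
    exact e

/-- Words in the `T_l`, `l ≠ p`, `l ≠ 1`. -/
theorem okC_of {p : ℕ} {C : List (ℤ × List ℕ)} (h : OkQ 1 p C) : OkC p C :=
  fun c hc l hl => ⟨(h c hc l hl).1, (h c hc l hl).2.1⟩

end G1

end Pool.Agent.Helper76.Bq
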