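import Pool.Agent.Helper76.Bq.WoQ
import Pool.Agent.Helper28.T7.Defs

/-!
# Levels `7 p^n`: transport of integral symbols
-/

set_option autoImplicit false

namespace Pool.Agent.Helper76.Bq

open Pool.Agent.Helper14.CV (Homog EqC act Tl)
open Pool.Agent.Helper28.T7 (HTy SymH)
open Pool.Agent.Helper76.TL.Wo (Gi)

namespace G7

private lemma ppos {p : ℕ} (hp : 0 < p) (r : ℕ) : ((p : ℤ) ^ r) ≠ 0 :=
  pow_ne_zero r (by exact_mod_cast hp.ne')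

private lemma p_or {p : ℕ} (hp : 0 < p) (r : ℕ) {x y : ℤ} (h : x ≠ 0 ∨ y ≠ 0) :
    ((p : ℤ) ^ r * x ≠ 0 ∨ y ≠ 0) := by
  rcases h with h0 | h0
  · exact Or.inl (mul_ne_zero (ppos hp r) h0)
  · exact Or.inr h0

private lemma q_dvd {p : ℕ} (hp3 : ¬ 7 ∣ p) (r : ℕ) {z : ℤ} (h : (7 : ℤ) ∣ (p : ℤ) ^ r * z) :
    (7 : ℤ) ∣ z := by
  have hq : Prime (7 : ℤ) := Int.prime_iff_natAbs_prime.2 (by norm_num)
  rcases hq.dvd_mul.1 h with h0 | h0
  · have h1 := hq.dvd_of_dvd_pow h0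
    exact absurd (by exact_mod_cast h1) hp3
  · exact h0

/-- The transported symbol has level `7 p^(r+s)`. -/
theorem sym_Gi {p : ℕ} (hp : 0 < p) (hp3 : ¬ 7 ∣ p) {r s : ℕ} {G : ℤ → ℤ → ℤ} (h : SymH p r s G) :
    SymH p 0 (r + s) (Gi p r G) := by
  refine ⟨?_, ?_⟩
  · intro k x y hk hxy
    have e := h.1 k ((p : ℤ) ^ r * x) y hk (p_or hp r hxy)
    have e1 : (p : ℤ) ^ r * (k * x) = k * ((p : ℤ) ^ r * x) := by ring
    simp only [Gi]
    rw [e1, e]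
  · intro a b c d hty _ hc
    obtain ⟨c', hc'⟩ := hc
    have hcd : (7 : ℤ) ∣ c → (7 : ℤ) ∣ (p : ℤ) ^ s * c' := by
      intro h2
      rw [hc'] at h2
      exact (q_dvd hp3 _ h2).mul_left _
    have hty' : HTy a ((p : ℤ) ^ r * b) ((p : ℤ) ^ s * c') d := by
      rcases hty with ⟨h1, h2⟩ | ⟨h1, h2, h3, h4⟩
      · exact Or.inl ⟨by rw [← h1, hc', pow_add]; ring, hcd h2⟩
      · exact Or.inr ⟨by rw [← h1, hc', pow_add]; ring, h2, hcd h3, h4⟩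
    obtain ⟨k, hk⟩ := h.2 a ((p : ℤ) ^ r * b) ((p : ℤ) ^ s * c') d hty' (Dvd.intro _ rfl)
      (Dvd.intro _ rfl)
    refine ⟨k, ?_⟩
    intro x y hxy
    have e := hk ((p : ℤ) ^ r * x) y (p_or hp r hxy)
    simp only [act, Gi] at e ⊢
    have e1 : (p : ℤ) ^ r * (a * x + b * y) = a * ((p : ℤ) ^ r * x) + (p : ℤ) ^ r * b * y := by ring
    have e2 : c * x + d * y = (p : ℤ) ^ s * c' * ((p : ℤ) ^ r * x) + d * y := by
      rw [hc', pow_add]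
      ring
    rw [e1, e2]
    exact e

end G7

end Pool.Agent.Helper76.Bq
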