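import Pool.Agent.Helper76.Bq.WoC
import Pool.Agent.Helper4.P11.StD

/-!
# Module BAS for the levels `11^n`: an integral family of symbols with determinant prime to eleven
-/

set_option autoImplicit false

namespace Pool.Agent.Helper76.Bq

open Pool.Agent.Helper14.CV (Homog EqC act Tl)
open Pool.Agent.Helper28.WK (SymP Tw evw Ok)
open Pool.Agent.Helper76.P11 (dd11)
open Pool.Agent.Helper4.P11 (PrM UW VW OW cO evM aM bM eM dgM rhM TTri TLif TCnt)
open Pool.Agent.Helper93.TLE (DDE)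
open Pool.Agent.Helper79.S7 (evc OkC BasP)
open Pool.Agent.Helper76.TL.Wo (Gi)

namespace B11

private lemma pr_ok {W : List (ℤ × List ℕ)} (h : ∀ t ∈ W, ∀ l ∈ t.2, l ∈ PrM) : OkQ 1 11 W := by
  intro t ht l hl
  have h1 := h t ht l hl
  simp only [PrM, List.mem_cons, List.not_mem_nil, or_false] at h1
  rcases h1 with rfl | rfl | rfl | rfl | rfl | rfl | rfl | rfl | rfl | rfl | rfl | rfl | rfl <;>
    norm_num

private lemma okU : OkQ 1 11 UW := pr_ok (by decide)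

private lemma okV : OkQ 1 11 VW := pr_ok (by decide)

private lemma okO (c : ℕ) : OkQ 1 11 (OW c) := pr_ok (by unfold OW; split <;> decide)

private lemma wo_c {W : List (ℤ × List ℕ)} (hW : OkQ 1 11 W)
    {A : ∀ (R : Type) [AddCommGroup R], ℤ → (ℤ → ℤ → R) → (ℤ → ℤ → R)}
    (hA : WQ 1 11 A) : WQ 1 11 (fun R _ m G => cO W m (A R m G)) := wq_list W hW hA

private lemma wo_w (c i j : ℕ) : WQ 1 11 (fun R _ m G => cO (OW c) m ((cO UW m)^[i] ((cO VW m)^[j] G))) :=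
  wo_c (okO c) (wq_iter (B := fun R _ m => cO UW m) (fun _ h => wo_c okU h)
    (wq_iter (B := fun R _ m => cO VW m) (fun _ h => wo_c okV h) (wq_id 1 11) j) i)

end B11

open B11 in
/-- The value `evM` is an integer combination of values at words, the same for all groups. -/
theorem evM_evc (c i j : ℕ) : ∃ C : List (ℤ × List ℕ), OkQ 1 11 C ∧
    ∀ (R : Type) [AddCommGroup R] (m : ℤ) (G : ℤ → ℤ → R), evM m G c i j = evc m C G := by
  obtain ⟨C, hC, hE⟩ := wq_ev (wo_w c i j)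
  refine ⟨C, hC, ?_⟩
  intro R _ m G
  rw [← hE]
  rfl

namespace B11

private theorem core (r s N n : ℕ) (I : Finset (ℕ × ℕ × ℕ))
    (hI : ∀ t ∈ I, t.1 ≤ 9 ∧ eM t.1 + t.2.1 + 11 * t.2.2 < 11 ^ r ∧
      bM t.1 + t.2.1 + t.2.2 < 11 ^ s) (hN : I.card = N)
    (hn : r + (s + 1) = n) (hTri : TTri) (hLif : TLif) :
    ∃ (G : Fin N → ℤ → ℤ → ℤ) (C : Fin N → List (ℤ × List ℕ)), (∀ k, SymP 11 0 n (G k)) ∧
      (∀ l, OkC 11 (C l)) ∧ ¬ (11 : ℤ) ∣ Matrix.det (Matrix.of fun k l => evc 1 (C l) (G k)) := by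
  choose Cw hCw hCe using evM_evc
  have h1 : ∀ t : I, ∃ G : ℤ → ℤ → ℤ, SymP 11 0 n G ∧
      (((evc 1 (Cw t.1.1 t.1.2.1 t.1.2.2) G : ℤ) : ZMod 11) ≠ 0) ∧
      ∀ c i j, c ≤ 9 → (((evc 1 (Cw c i j) G : ℤ) : ZMod 11) ≠ 0 →
        (dgM c i j < dgM t.1.1 t.1.2.1 t.1.2.2 ∨
        (dgM c i j = dgM t.1.1 t.1.2.1 t.1.2.2 ∧
          (rhM c i j < rhM t.1.1 t.1.2.1 t.1.2.2 ∨ (rhM c i j = rhM t.1.1 t.1.2.1 t.1.2.2 ∧ c ≤ t.1.1))))) := by
    intro t
    obtain ⟨hc, ha, hb⟩ := hI t.1 t.2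
    obtain ⟨g, hg, hg1, hg2⟩ := hTri r s t.1.1 t.1.2.1 t.1.2.2 hc ha hb
    obtain ⟨G, hG, hGe⟩ := hLif r s g hg
    have hs := G1.sym_Gi (p := 11) (by norm_num) hG
    rw [hn] at hs
    have hev : ∀ c i j, ((evc 1 (Cw c i j) (Gi 11 r G) : ℤ) : ZMod 11) = evM (11 ^ r) g c i j := by
      intro c i j
      rw [evc_Gi (q := 1) (p := 11) (by norm_num) r hG.1 _ (hCw _ _ _), ← hCe]
      exact_mod_cast hGe c i j
    refine ⟨Gi 11 r G, hs, ?_, ?_⟩
    · rw [hev]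
      exact hg1
    · intro c i j hc1 hij
      rw [hev] at hij
      rcases hg2 c i j hc1 hij with h | ⟨h, h' | ⟨h', h''⟩⟩
      · exact Or.inl h
      · exact Or.inr ⟨h, Or.inl h'⟩
      · exact Or.inr ⟨h, Or.inr ⟨h', h''.le⟩⟩
  choose G hS hd hM using h1
  let M : Matrix I I ℤ := Matrix.of fun t u => evc 1 (Cw u.1.1 u.1.2.1 u.1.2.2) (G t)
  have hdet : ((M.det : ℤ) : ZMod 11) ≠ 0 := by
    refine unit_det_lex (by norm_num)
      (fun t : I => dgM t.1.1 t.1.2.1 t.1.2.2)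
      (fun t : I => rhM t.1.1 t.1.2.1 t.1.2.2) (fun t : I => t.1.1) ?_ M
      (fun t => hd t) (fun t u htu => hM t _ _ _ (hI u.1 u.2).1 htu)
    intro t u h2 h3 h4
    simp only [dgM, rhM] at h2 h3
    rw [h4] at h2 h3
    apply Subtype.ext
    apply Prod.ext
    · exact h4
    · apply Prod.ext
      · omega
      · omega
  let e : Fin N ≃ I := (I.equivFinOfCardEq hN).symm
  refine ⟨fun k => G (e k), fun l => Cw (e l).1.1 (e l).1.2.1 (e l).1.2.2, fun k => hS (e k),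
    fun l => G1.okC_of (hCw _ _ _), ?_⟩
  have h2 : (Matrix.of fun k l => evc 1 (Cw (e l).1.1 (e l).1.2.1 (e l).1.2.2) (G (e k))) =
      M.submatrix e e := rfl
  rw [h2, Matrix.det_submatrix_equiv_self]
  intro h3
  exact hdet ((ZMod.intCast_zmod_eq_zero_iff_dvd _ 11).2 (by exact_mod_cast h3))

end B11

open B11 in
/-- BAS for the levels `11^n`. -/
theorem hBas11 : TTri → TLif → TCnt → BasP 11 (DDE 5 dd11) := by
  intro hTri hLif hCnt n hn
  rcases Nat.even_or_odd' n with ⟨k, hk | hk⟩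
  · subst hk
    refine core k (k - 1) _ _ _ ?_ (hCnt.1 k (by omega)) (by omega) hTri hLif
    intro t ht
    have h := Finset.mem_filter.1 ht
    have h0 := Finset.mem_range.1 (Finset.mem_product.1 h.1).1
    exact ⟨by omega, h.2.1, h.2.2⟩
  · subst hk
    refine core k k _ _ _ ?_ (hCnt.2 k (by omega)) (by omega) hTri hLif
    intro t ht
    have h := Finset.mem_filter.1 ht
    have h0 := Finset.mem_range.1 (Finset.mem_product.1 h.1).1
    exact ⟨by omega, h.2.1, h.2.2⟩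

end Pool.Agent.Helper76.Bq
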