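import Pool.Agent.Helper76.Bq.WoC
import Pool.Agent.Helper76.P13.StD

/-!
# Module BAS for the levels `13^n`: an integral family of symbols with determinant prime to thirteen
-/

set_option autoImplicit false

namespace Pool.Agent.Helper76.Bq

open Pool.Agent.Helper14.CV (Homog EqC act Tl)
open Pool.Agent.Helper28.WK (SymP Tw evw Ok)
open Pool.Agent.Helper76.P13 (dd13)
open Pool.Agent.Helper28.P13 (PrM UW VW OW)
open Pool.Agent.Helper76.P13D (cO evM aM bM dgM rhM TTri TLif TCnt)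
open Pool.Agent.Helper93.TLE (DDE)
open Pool.Agent.Helper79.S7 (evc OkC BasP)
open Pool.Agent.Helper76.TL.Wo (Gi)

namespace B13

private lemma pr_ok {W : List (ℤ × List ℕ)} (h : ∀ t ∈ W, ∀ l ∈ t.2, l ∈ PrM) : OkQ 1 13 W := by
  intro t ht l hl
  have h1 := h t ht l hl
  simp only [PrM, List.mem_cons, List.not_mem_nil, or_false] at h1
  rcases h1 with rfl | rfl | rfl | rfl | rfl | rfl | rfl | rfl | rfl | rfl | rfl | rfl | rfl | rfl | rfl | rfl | rfl | rfl | rfl | rfl | rfl | rfl <;>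
    norm_num

private lemma okU : OkQ 1 13 UW := pr_ok (by decide)

private lemma okV : OkQ 1 13 VW := pr_ok (by decide)

private lemma okO (c : ℕ) : OkQ 1 13 (OW c) := pr_ok (by unfold OW; split <;> decide)

private lemma wo_c {W : List (ℤ × List ℕ)} (hW : OkQ 1 13 W)
    {A : ∀ (R : Type) [AddCommGroup R], ℤ → (ℤ → ℤ → R) → (ℤ → ℤ → R)}
    (hA : WQ 1 13 A) : WQ 1 13 (fun R _ m G => cO W m (A R m G)) := wq_list W hW hA

private lemma wo_w (c i j : ℕ) : WQ 1 13 (fun R _ m G => cO (OW c) m ((cO UW m)^[i] ((cO VW m)^[j] G))) :=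
  wo_c (okO c) (wq_iter (B := fun R _ m => cO UW m) (fun _ h => wo_c okU h)
    (wq_iter (B := fun R _ m => cO VW m) (fun _ h => wo_c okV h) (wq_id 1 13) j) i)

end B13

open B13 in
/-- The value `evM` is an integer combination of values at words, the same for all groups. -/
private theorem evM_evc13 (c i j : ℕ) : ∃ C : List (ℤ × List ℕ), OkQ 1 13 C ∧
    ∀ (R : Type) [AddCommGroup R] (m : ℤ) (G : ℤ → ℤ → R), evM m G c i j = evc m C G := by
  obtain ⟨C, hC, hE⟩ := wq_ev (wo_w c i j)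
  refine ⟨C, hC, ?_⟩
  intro R _ m G
  rw [← hE]
  rfl

namespace B13

/-- The third key: `13` comes first. -/
private def k3 (c : ℕ) : ℕ := if c = 13 then 0 else c + 1

private lemma k3_inj {a b : ℕ} (h : k3 a = k3 b) : a = b := by
  unfold k3 at h
  split_ifs at h <;> omega

private theorem core (r s N n : ℕ) (I : Finset (ℕ × ℕ × ℕ))
    (hI : ∀ t ∈ I, t.1 ≤ 13 ∧ aM t.1 + t.2.1 + 13 * t.2.2 < 13 ^ r ∧
      bM t.1 + t.2.1 + t.2.2 < 13 ^ s) (hN : I.card = N)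
    (hn : r + (s + 1) = n) (hTri : TTri) (hLif : TLif) :
    ∃ (G : Fin N → ℤ → ℤ → ℤ) (C : Fin N → List (ℤ × List ℕ)), (∀ k, SymP 13 0 n (G k)) ∧
      (∀ l, OkC 13 (C l)) ∧ ¬ (13 : ℤ) ∣ Matrix.det (Matrix.of fun k l => evc 1 (C l) (G k)) := by
  choose Cw hCw hCe using evM_evc13
  have h1 : ∀ t : I, ∃ G : ℤ → ℤ → ℤ, SymP 13 0 n G ∧
      (((evc 1 (Cw t.1.1 t.1.2.1 t.1.2.2) G : ℤ) : ZMod 13) ≠ 0) ∧
      ∀ c i j, c ≤ 13 → aM c + i + 13 * j < 13 ^ r → (((evc 1 (Cw c i j) G : ℤ) : ZMod 13) ≠ 0 →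
        (dgM c i j < dgM t.1.1 t.1.2.1 t.1.2.2 ∨
        (dgM c i j = dgM t.1.1 t.1.2.1 t.1.2.2 ∧
          (rhM c i j < rhM t.1.1 t.1.2.1 t.1.2.2 ∨ (rhM c i j = rhM t.1.1 t.1.2.1 t.1.2.2 ∧ k3 c ≤ k3 t.1.1))))) := by
    intro t
    obtain ⟨hc, ha, hb⟩ := hI t.1 t.2
    obtain ⟨g, hg, hg1, hg2⟩ := hTri r s t.1.1 t.1.2.1 t.1.2.2 hc ha hb
    obtain ⟨G, hG, hGe⟩ := hLif r s g hg
    have hs := G1.sym_Gi (p := 13) (by norm_num) hG
    rw [hn] at hs
    have hev : ∀ c i j, ((evc 1 (Cw c i j) (Gi 13 r G) : ℤ) : ZMod 13) = evM (13 ^ r) g c i j := by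
      intro c i j
      rw [evc_Gi (q := 1) (p := 13) (by norm_num) r hG.1 _ (hCw _ _ _), ← hCe]
      exact_mod_cast hGe c i j
    refine ⟨Gi 13 r G, hs, ?_, ?_⟩
    · rw [hev]
      exact hg1
    · intro c i j hc1 hc2 hij
      rw [hev] at hij
      rcases hg2 c i j hc1 hc2 hij with h | ⟨h, h' | ⟨h', h'' | ⟨h1, h2⟩⟩⟩
      · exact Or.inl h
      · exact Or.inr ⟨h, Or.inl h'⟩
      · exact Or.inr ⟨h, Or.inr ⟨h', by rw [h'']⟩⟩
      · exact Or.inr ⟨h, Or.inr ⟨h', by rw [h1, h2]; decide⟩⟩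
  choose G hS hd hM using h1
  let M : Matrix I I ℤ := Matrix.of fun t u => evc 1 (Cw u.1.1 u.1.2.1 u.1.2.2) (G t)
  have hdet : ((M.det : ℤ) : ZMod 13) ≠ 0 := by
    refine unit_det_lex (by norm_num)
      (fun t : I => dgM t.1.1 t.1.2.1 t.1.2.2)
      (fun t : I => rhM t.1.1 t.1.2.1 t.1.2.2) (fun t : I => k3 t.1.1) ?_ M
      (fun t => hd t) (fun t u htu => hM t _ _ _ (hI u.1 u.2).1 (hI u.1 u.2).2.1 htu)
    intro t u h2 h3 h5
    have h4 := k3_inj h5
    simp only [dgM, rhM] at h2 h3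
    rw [h4] at h2 h3
    apply Subtype.ext
    apply Prod.ext
    · exact h4
    · apply Prod.ext
      · omega
      · omega
  let e : Fin N ≃ I := (I.equivFinOfCardEq hN).symm
  refine ⟨fun k => G (e k), fun l => Cw (e l).1.1 (e l).1.2.1 (e l).1.2.2, fun k => hS (e k),
    fun l => G1.okC_of (hCw _ _ _), ?_⟩
  have h2 : (Matrix.of fun k l => evc 1 (Cw (e l).1.1 (e l).1.2.1 (e l).1.2.2) (G (e k))) =
      M.submatrix e e := rfl
  rw [h2, Matrix.det_submatrix_equiv_self]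
  intro h3
  exact hdet ((ZMod.intCast_zmod_eq_zero_iff_dvd _ 13).2 (by exact_mod_cast h3))

end B13

open B13 in
/-- BAS for the levels `13^n`. -/
theorem hBas13 : TTri → TLif → TCnt → BasP 13 (DDE 6 dd13) := by
  intro hTri hLif hCnt n hn
  rcases Nat.even_or_odd' n with ⟨k, hk | hk⟩
  · subst hk
    refine core k (k - 1) _ _ _ ?_ (hCnt.1 k (by omega)) (by omega) hTri hLif
    intro t ht
    have h := Finset.mem_filter.1 ht
    have h0 := Finset.mem_range.1 (Finset.mem_product.1 h.1).1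
    exact ⟨by omega, h.2.1, h.2.2⟩
  · subst hk
    refine core k k _ _ _ ?_ (hCnt.2 k (by omega)) (by omega) hTri hLif
    intro t ht
    have h := Finset.mem_filter.1 ht
    have h0 := Finset.mem_range.1 (Finset.mem_product.1 h.1).1
    exact ⟨by omega, h.2.1, h.2.2⟩

end Pool.Agent.Helper76.Bq
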