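import Pool.Agent.Helper76.Bq.Gi5
import Pool.Agent.Helper93.T53.StD
import Pool.Agent.Helper79.T5E.StE

/-!
# Module BAS for the levels `5 * 3^n`: an integral family of symbols with determinant prime to three
-/

set_option autoImplicit false

namespace Pool.Agent.Helper76.Bq

open Pool.Agent.Helper14.CV (Homog EqC act Tl)
open Pool.Agent.Helper28.WK (Tw evw)
open Pool.Agent.Helper28.T5 (HTy SymH)
open Pool.Agent.Helper93.T53 (UoT VoT PoT e0T evT aT bT cT TTri TLif TCnt)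
open Pool.Agent.Helper93.TLE (DDE)
open Pool.Agent.Helper79.T5E (BasH)
open Pool.Agent.Helper79.S7 (evc)
open Pool.Agent.Helper76.TL.Wo (Gi)

namespace B53

section

attribute [local irreducible] Tl

private lemma wo_U {A : ∀ (R : Type) [AddCommGroup R], ℤ → (ℤ → ℤ → R) → (ℤ → ℤ → R)}
    (hA : WQ 5 3 A) : WQ 5 3 (fun R _ m G => UoT m (A R m G)) := by
  unfold UoT
  repeat' first
    | exact hA
    | refine wq_sub ?_ ?_
    | refine wq_add ?_ ?_
    | refine wq_smul _ ?_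
    | refine wq_Tl _ (by norm_num) (by norm_num) (by norm_num) ?_

private lemma wo_V {A : ∀ (R : Type) [AddCommGroup R], ℤ → (ℤ → ℤ → R) → (ℤ → ℤ → R)}
    (hA : WQ 5 3 A) : WQ 5 3 (fun R _ m G => VoT m (A R m G)) := by
  unfold VoT
  repeat' first
    | exact hA
    | refine wq_sub ?_ ?_
    | refine wq_add ?_ ?_
    | refine wq_smul _ ?_
    | refine wq_Tl _ (by norm_num) (by norm_num) (by norm_num) ?_

private lemma wo_P {A : ∀ (R : Type) [AddCommGroup R], ℤ → (ℤ → ℤ → R) → (ℤ → ℤ → R)}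
    (hA : WQ 5 3 A) (c : ℕ) : WQ 5 3 (fun R _ m G => PoT m c (A R m G)) := by
  unfold PoT
  split_ifs
  all_goals
    repeat' first
      | exact hA
      | refine wq_sub ?_ ?_
      | refine wq_add ?_ ?_
      | refine wq_smul _ ?_
      | refine wq_Tl _ (by norm_num) (by norm_num) (by norm_num) ?_

end

private lemma wo_w (c i j : ℕ) : WQ 5 3 (fun R _ m G => PoT m c ((UoT m)^[i] ((VoT m)^[j] G))) :=
  wo_P (wq_iter (B := fun R _ m => UoT m) (fun _ h => wo_U h)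
    (wq_iter (B := fun R _ m => VoT m) (fun _ h => wo_V h) (wq_id 5 3) j) i) c

end B53

open B53 in
/-- The value `evT` is an integer combination of values at words, the same for all groups. -/
theorem evT_evc (c i j : ℕ) : ∃ C : List (ℤ × List ℕ), OkQ 5 3 C ∧
    ∀ (R : Type) [AddCommGroup R] (m : ℤ) (G : ℤ → ℤ → R), evT m G c i j = evc m C G := by
  by_cases h : c = 3 ∧ 1 ≤ i
  · obtain ⟨C, hC, hE⟩ := wq_ev (wq_add (wo_w c i j) (wq_sub (wo_w 1 (i - 1) (j + 1)) (wo_w 2 (i - 1) (j + 1))))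
    refine ⟨C, hC, ?_⟩
    intro R _ m G
    rw [← hE]
    simp only [evT, e0T, if_pos h, Pi.add_apply, Pi.sub_apply]
    abel
  · obtain ⟨C, hC, hE⟩ := wq_ev (wo_w c i j)
    refine ⟨C, hC, ?_⟩
    intro R _ m G
    rw [← hE]
    simp only [evT, e0T, if_neg h, add_zero]

namespace B53

private theorem core (r s N n : ℕ) (I : Finset (ℕ × ℕ × ℕ))
    (hI : ∀ t ∈ I, t.1 ≤ 5 ∧ bT t.1 + t.2.1 + 3 * t.2.2 < 3 ^ r ∧
      cT t.1 + t.2.1 + t.2.2 < 3 ^ s) (hN : I.card = N)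
    (hn : (r + 1) + (s + 1) = n) (hTri : TTri) (hLif : TLif) :
    ∃ (G : Fin N → ℤ → ℤ → ℤ) (C : Fin N → List (ℤ × List ℕ)), (∀ k, SymH 3 0 n (G k)) ∧
      (∀ l, OkQ 5 3 (C l)) ∧ ¬ (3 : ℤ) ∣ Matrix.det (Matrix.of fun k l => evc 1 (C l) (G k)) := by
  choose Cw hCw hCe using evT_evc
  have h1 : ∀ t : I, ∃ G : ℤ → ℤ → ℤ, SymH 3 0 n G ∧
      (((evc 1 (Cw t.1.1 t.1.2.1 t.1.2.2) G : ℤ) : ZMod 3) ≠ 0) ∧
      ∀ c i j, c ≤ 5 → (((evc 1 (Cw c i j) G : ℤ) : ZMod 3) ≠ 0 →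
        (aT c + 2 * i + 4 * j < aT t.1.1 + 2 * t.1.2.1 + 4 * t.1.2.2 ∨
        (aT c + 2 * i + 4 * j = aT t.1.1 + 2 * t.1.2.1 + 4 * t.1.2.2 ∧
          (i + j < t.1.2.1 + t.1.2.2 ∨ (i + j = t.1.2.1 + t.1.2.2 ∧ c ≤ t.1.1))))) := by
    intro t
    obtain ⟨hc, ha, hb⟩ := hI t.1 t.2
    obtain ⟨g, hg, hg1, hg2⟩ := hTri r s t.1.1 t.1.2.1 t.1.2.2 hc ha hb
    obtain ⟨G, hG, hGe⟩ := hLif r s g hg
    have hs := G5.sym_Gi (p := 3) (by norm_num) (by norm_num) hG
    rw [hn] at hs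
    have hev : ∀ c i j, ((evc 1 (Cw c i j) (Gi 3 (r + 1) G) : ℤ) : ZMod 3) =
        evT (3 ^ (r + 1)) g c i j := by
      intro c i j
      rw [evc_Gi (q := 5) (p := 3) (by norm_num) (r + 1) hG.1 _ (hCw _ _ _), ← hCe]
      exact_mod_cast hGe c i j
    refine ⟨Gi 3 (r + 1) G, hs, ?_, ?_⟩
    · rw [hev]
      exact hg1
    · intro c i j hc1 hij
      apply hg2 c i j hc1
      rw [hev] at hij
      exact hij
  choose G hS hd hM using h1
  let M : Matrix I I ℤ := Matrix.of fun t u => evc 1 (Cw u.1.1 u.1.2.1 u.1.2.2) (G t)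
  have hdet : ((M.det : ℤ) : ZMod 3) ≠ 0 := by
    refine unit_det_lex Nat.prime_three
      (fun t : I => aT t.1.1 + 2 * t.1.2.1 + 4 * t.1.2.2)
      (fun t : I => t.1.2.1 + t.1.2.2) (fun t : I => t.1.1) ?_ M
      (fun t => hd t) (fun t u htu => hM t _ _ _ (hI u.1 u.2).1 htu)
    intro t u h2 h3 h4
    rw [h4] at h2
    apply Subtype.ext
    apply Prod.ext
    · exact h4
    · apply Prod.ext
      · omega
      · omega
  let e : Fin N ≃ I := (I.equivFinOfCardEq hN).symm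
  refine ⟨fun k => G (e k), fun l => Cw (e l).1.1 (e l).1.2.1 (e l).1.2.2, fun k => hS (e k),
    fun l => hCw _ _ _, ?_⟩
  have h2 : (Matrix.of fun k l => evc 1 (Cw (e l).1.1 (e l).1.2.1 (e l).1.2.2) (G (e k))) =
      M.submatrix e e := rfl
  rw [h2, Matrix.det_submatrix_equiv_self]
  intro h3
  exact hdet ((ZMod.intCast_zmod_eq_zero_iff_dvd _ 3).2 (by exact_mod_cast h3))

end B53

open B53 in
/-- BAS for the levels `5 * 3^n`. -/
theorem hBas53 : TTri → TLif → TCnt → BasH 3 2 Pool.Agent.Helper93.T53.dd5 := by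
  intro hTri hLif hCnt n hn
  rcases Nat.even_or_odd' n with ⟨k, hk | hk⟩
  · subst hk
    refine core (k - 1) (k - 1) _ _ _ ?_ (hCnt.1 k (by omega)) (by omega) hTri hLif
    intro t ht
    have h := Finset.mem_filter.1 ht
    have h0 := Finset.mem_range.1 (Finset.mem_product.1 h.1).1
    exact ⟨by omega, h.2.1, h.2.2⟩
  · subst hk
    refine core k (k - 1) _ _ _ ?_ (hCnt.2 k (by omega)) (by omega) hTri hLif
    intro t ht
    have h := Finset.mem_filter.1 ht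
    have h0 := Finset.mem_range.1 (Finset.mem_product.1 h.1).1
    exact ⟨by omega, h.2.1, h.2.2⟩

end Pool.Agent.Helper76.Bq
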