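import Pool.Agent.Helper76.Bq.WoQ
import Pool.Agent.Helper76.TK5.Wo
import Pool.Agent.Helper14.TK7.StD
import Pool.Agent.Helper79.TKE.StE

/-!
# Module BAS for the levels `3 * 7^n`: an integral family of symbols with determinant prime to seven
-/

set_option autoImplicit false

namespace Pool.Agent.Helper76.Bq

open Pool.Agent.Helper14.CV (Homog EqC act Tl)
open Pool.Agent.Helper28.WK (Tw evw)
open Pool.Agent.Helper4.TK (SymK OkK)
open Pool.Agent.Helper14.TK7 (AoK BoK CoK UoK VoK OoK evK aaK abK dgK rhK TTri TLif TCnt)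
open Pool.Agent.Helper93.TLE (DDE)
open Pool.Agent.Helper79.TKE (BasK)
open Pool.Agent.Helper79.S7 (evc)
open Pool.Agent.Helper76.TL.Wo (Gi)
open Pool.Agent.Helper76.TK5.Wo (OkCK WOK wok_id wok_add wok_sub wok_smul wok_Tl wok_iter wok_ev sym_GiK evc_GiK)

namespace B73

section

attribute [local irreducible] Tl

private lemma wo_U {A : ∀ (R : Type) [AddCommGroup R], ℤ → (ℤ → ℤ → R) → (ℤ → ℤ → R)}
    (hA : WOK 7 A) : WOK 7 (fun R _ m G => UoK m (A R m G)) := by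
  unfold UoK
  repeat' first
    | exact hA
    | refine wok_sub ?_ ?_
    | refine wok_add ?_ ?_
    | refine wok_smul _ ?_
    | refine wok_Tl _ (by norm_num) (by norm_num) (by norm_num) ?_

private lemma wo_V {A : ∀ (R : Type) [AddCommGroup R], ℤ → (ℤ → ℤ → R) → (ℤ → ℤ → R)}
    (hA : WOK 7 A) : WOK 7 (fun R _ m G => VoK m (A R m G)) := by
  unfold VoK AoK BoK CoK
  repeat' first
    | exact hA
    | refine wok_sub ?_ ?_
    | refine wok_add ?_ ?_
    | refine wok_smul _ ?_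
    | refine wok_Tl _ (by norm_num) (by norm_num) (by norm_num) ?_

private lemma wo_O {A : ∀ (R : Type) [AddCommGroup R], ℤ → (ℤ → ℤ → R) → (ℤ → ℤ → R)}
    (hA : WOK 7 A) (c : ℕ) : WOK 7 (fun R _ m G => OoK c m (A R m G)) := by
  unfold OoK
  split_ifs
  all_goals
    repeat' first
      | exact hA
      | refine wok_sub ?_ ?_
      | refine wok_add ?_ ?_
      | refine wok_smul _ ?_
      | refine wok_Tl _ (by norm_num) (by norm_num) (by norm_num) ?_

end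

end B73

open B73 in
/-- The value `evK` is an integer combination of values at words, the same for all groups. -/
theorem evK7_evc (c i j : ℕ) : ∃ C : List (ℤ × List ℕ), OkCK 7 C ∧
    ∀ (R : Type) [AddCommGroup R] (m : ℤ) (G : ℤ → ℤ → R), evK m G c i j = evc m C G :=
  wok_ev (wo_O (wok_iter (B := fun R _ m => UoK m) (fun _ h => wo_U h)
    (wok_iter (B := fun R _ m => VoK m) (fun _ h => wo_V h) (wok_id 7) j) i) c)

namespace B73

private lemma inj {c i j c' i' j' : ℕ} (hc : c ≤ 7) (hc' : c' ≤ 7) (h1 : dgK c i j = dgK c' i' j')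
    (h2 : rhK c i j = rhK c' i' j') (h3 : (if c = 7 then 0 else c) = if c' = 7 then 0 else c') :
    c = c' ∧ i = i' ∧ j = j' := by
  by_cases h : c = c'
  · subst h
    simp only [dgK, rhK] at h1 h2
    exact ⟨rfl, by omega, by omega⟩
  · exfalso
    have h4 : (c = 7 ∧ c' = 0) ∨ (c = 0 ∧ c' = 7) := by
      split_ifs at h3 <;> omega
    rcases h4 with ⟨rfl, rfl⟩ | ⟨rfl, rfl⟩
    · simp [dgK, aaK, abK] at h1
      omega
    · simp [dgK, aaK, abK] at h1
      omega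

private theorem core (r s N n : ℕ) (I : Finset (ℕ × ℕ × ℕ))
    (hI : ∀ t ∈ I, t.1 ≤ 7 ∧ aaK t.1 + t.2.1 + 7 * t.2.2 < 7 ^ r ∧
      abK t.1 + t.2.1 + t.2.2 < 7 ^ s) (hN : I.card = N)
    (hn : r + (s + 1) = n) (hTri : TTri) (hLif : TLif) :
    ∃ (G : Fin N → ℤ → ℤ → ℤ) (C : Fin N → List (ℤ × List ℕ)), (∀ k, SymK 7 0 n (G k)) ∧
      (∀ l, OkCK 7 (C l)) ∧ ¬ (7 : ℤ) ∣ Matrix.det (Matrix.of fun k l => evc 1 (C l) (G k)) := by
  choose Cw hCw hCe using evK7_evc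
  have h1 : ∀ t : I, ∃ G : ℤ → ℤ → ℤ, SymK 7 0 n G ∧
      (((evc 1 (Cw t.1.1 t.1.2.1 t.1.2.2) G : ℤ) : ZMod 7) ≠ 0) ∧
      ∀ c i j, c ≤ 7 → aaK c + i + 7 * j < 7 ^ r → (((evc 1 (Cw c i j) G : ℤ) : ZMod 7) ≠ 0 →
        (dgK c i j < dgK t.1.1 t.1.2.1 t.1.2.2 ∨ (dgK c i j = dgK t.1.1 t.1.2.1 t.1.2.2 ∧
          (rhK c i j < rhK t.1.1 t.1.2.1 t.1.2.2 ∨ (rhK c i j = rhK t.1.1 t.1.2.1 t.1.2.2 ∧
            (c = t.1.1 ∨ (t.1.1 = 1 ∧ c = 7))))))) := by
    intro t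
    obtain ⟨hc, ha, hb⟩ := hI t.1 t.2
    obtain ⟨g, hg, hg1, hg2⟩ := hTri r s t.1.1 t.1.2.1 t.1.2.2 hc ha hb
    obtain ⟨G, hG, hGe⟩ := hLif r s g hg
    have hs := sym_GiK (p := 7) (by norm_num) (by norm_num) hG
    rw [hn] at hs
    have hev : ∀ c i j, ((evc 1 (Cw c i j) (Gi 7 r G) : ℤ) : ZMod 7) = evK (7 ^ r) g c i j := by
      intro c i j
      rw [evc_GiK (p := 7) (by norm_num) hG _ (hCw _ _ _), ← hCe]
      exact_mod_cast hGe c i j
    refine ⟨Gi 7 r G, hs, ?_, ?_⟩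
    · rw [hev]
      exact hg1
    · intro c i j hc1 ha1 hij
      apply hg2 c i j hc1 ha1
      rw [hev] at hij
      exact hij
  choose G hS hd hM using h1
  let M : Matrix I I ℤ := Matrix.of fun t u => evc 1 (Cw u.1.1 u.1.2.1 u.1.2.2) (G t)
  have hdet : ((M.det : ℤ) : ZMod 7) ≠ 0 := by
    refine unit_det_lex (by norm_num)
      (fun t : I => dgK t.1.1 t.1.2.1 t.1.2.2)
      (fun t : I => rhK t.1.1 t.1.2.1 t.1.2.2) (fun t : I => if t.1.1 = 7 then 0 else t.1.1) ?_ M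
      (fun t => hd t) (fun t u htu => ?_)
    · intro t u h2 h3 h4
      obtain ⟨e1, e2, e3⟩ := inj (hI t.1 t.2).1 (hI u.1 u.2).1 h2 h3 h4
      exact Subtype.ext (Prod.ext e1 (Prod.ext e2 e3))
    · rcases hM t _ _ _ (hI u.1 u.2).1 (hI u.1 u.2).2.1 htu with h | ⟨h, h' | ⟨h', h'' | ⟨h'', h3⟩⟩⟩
      · exact Or.inl h
      · exact Or.inr ⟨h, Or.inl h'⟩
      · refine Or.inr ⟨h, Or.inr ⟨h', ?_⟩⟩
        show (if u.1.1 = 7 then 0 else u.1.1) ≤ if t.1.1 = 7 then 0 else t.1.1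
        rw [h'']
      · refine Or.inr ⟨h, Or.inr ⟨h', ?_⟩⟩
        show (if u.1.1 = 7 then 0 else u.1.1) ≤ if t.1.1 = 7 then 0 else t.1.1
        rw [h3]
        simp
  let e : Fin N ≃ I := (I.equivFinOfCardEq hN).symm
  refine ⟨fun k => G (e k), fun l => Cw (e l).1.1 (e l).1.2.1 (e l).1.2.2, fun k => hS (e k),
    fun l => hCw _ _ _, ?_⟩
  have h2 : (Matrix.of fun k l => evc 1 (Cw (e l).1.1 (e l).1.2.1 (e l).1.2.2) (G (e k))) =
      M.submatrix e e := rfl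
  rw [h2, Matrix.det_submatrix_equiv_self]
  intro h3
  exact hdet ((ZMod.intCast_zmod_eq_zero_iff_dvd _ 7).2 (by exact_mod_cast h3))

end B73

open B73 in
/-- BAS for the levels `3 * 7^n`. -/
theorem hBas73 : TTri → TLif → TCnt → BasK 7 4 Pool.Agent.Helper76.TK7.ddK7 := by
  intro hTri hLif hCnt n hn
  rcases Nat.even_or_odd' n with ⟨k, hk | hk⟩
  · subst hk
    refine core k (k - 1) _ _ _ ?_ (hCnt.1 k (by omega)) (by omega) hTri hLif
    intro t ht
    have h := Finset.mem_filter.1 ht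
    have h0 := Finset.mem_range.1 (Finset.mem_product.1 h.1).1
    exact ⟨by omega, h.2.1, h.2.2⟩
  · subst hk
    refine core k k _ _ _ ?_ (hCnt.2 k (by omega)) (by omega) hTri hLif
    intro t ht
    have h := Finset.mem_filter.1 ht
    have h0 := Finset.mem_range.1 (Finset.mem_product.1 h.1).1
    exact ⟨by omega, h.2.1, h.2.2⟩

end Pool.Agent.Helper76.Bq
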