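import Pool.Agent.Helper76.Bq.Gi7
import Pool.Agent.Helper4.T7.StD
import Pool.Agent.Helper79.T7E.StE

/-!
# Module BAS for the levels `7 * 5^n`: an integral family of symbols with determinant prime to five
-/

set_option autoImplicit false

namespace Pool.Agent.Helper76.Bq

open Pool.Agent.Helper14.CV (Homog EqC act Tl)
open Pool.Agent.Helper28.WK (Tw evw)
open Pool.Agent.Helper28.T7 (HTy SymH)
open Pool.Agent.Helper4.T7 (AoQ BoQ UoQ VoQ OoQ evQ aQ bQ dgQ rhQ ddQ TTri TLif TCnt)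
open Pool.Agent.Helper93.TLE (DDE)
open Pool.Agent.Helper79.T7E (BasH)
open Pool.Agent.Helper79.S7 (evc)
open Pool.Agent.Helper76.TL.Wo (Gi)

namespace B75

section

attribute [local irreducible] Tl

private lemma wo_U {A : ∀ (R : Type) [AddCommGroup R], ℤ → (ℤ → ℤ → R) → (ℤ → ℤ → R)}
    (hA : WQ 7 5 A) : WQ 7 5 (fun R _ m G => UoQ m (A R m G)) := by
  unfold UoQ
  repeat' first
    | exact hA
    | refine wq_sub ?_ ?_
    | refine wq_add ?_ ?_
    | refine wq_smul _ ?_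
    | refine wq_Tl _ (by norm_num) (by norm_num) (by norm_num) ?_

private lemma wo_V {A : ∀ (R : Type) [AddCommGroup R], ℤ → (ℤ → ℤ → R) → (ℤ → ℤ → R)}
    (hA : WQ 7 5 A) : WQ 7 5 (fun R _ m G => VoQ m (A R m G)) := by
  unfold VoQ AoQ BoQ
  repeat' first
    | exact hA
    | refine wq_sub ?_ ?_
    | refine wq_add ?_ ?_
    | refine wq_smul _ ?_
    | refine wq_Tl _ (by norm_num) (by norm_num) (by norm_num) ?_

private lemma wo_O {A : ∀ (R : Type) [AddCommGroup R], ℤ → (ℤ → ℤ → R) → (ℤ → ℤ → R)}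
    (hA : WQ 7 5 A) (c : ℕ) : WQ 7 5 (fun R _ m G => OoQ c m (A R m G)) := by
  unfold OoQ
  split_ifs
  all_goals
    repeat' first
      | exact hA
      | refine wq_sub ?_ ?_
      | refine wq_add ?_ ?_
      | refine wq_smul _ ?_
      | refine wq_Tl _ (by norm_num) (by norm_num) (by norm_num) ?_

end

end B75

open B75 in
/-- The value `evQ` is an integer combination of values at words, the same for all groups. -/
theorem evQ_evc (c i j : ℕ) : ∃ C : List (ℤ × List ℕ), OkQ 7 5 C ∧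
    ∀ (R : Type) [AddCommGroup R] (m : ℤ) (G : ℤ → ℤ → R), evQ m G c i j = evc m C G :=
  wq_ev (wo_O (wq_iter (B := fun R _ m => UoQ m) (fun _ h => wo_U h)
    (wq_iter (B := fun R _ m => VoQ m) (fun _ h => wo_V h) (wq_id 7 5) j) i) c)

namespace B75

private lemma inj {c i j c' i' j' : ℕ} (h1 : dgQ c i j = dgQ c' i' j')
    (h2 : rhQ c i j = rhQ c' i' j') (h3 : c = c') : c = c' ∧ i = i' ∧ j = j' := by
  subst h3
  simp only [dgQ, rhQ] at h1 h2
  exact ⟨rfl, by omega, by omega⟩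

private theorem core (r s N n : ℕ) (I : Finset (ℕ × ℕ × ℕ))
    (hI : ∀ t ∈ I, t.1 ≤ 7 ∧ aQ t.1 + t.2.1 + 5 * t.2.2 < 5 ^ r ∧
      bQ t.1 + t.2.1 + t.2.2 < 5 ^ s) (hN : I.card = N)
    (hn : r + (s + 1) = n) (hTri : TTri) (hLif : TLif) :
    ∃ (G : Fin N → ℤ → ℤ → ℤ) (C : Fin N → List (ℤ × List ℕ)), (∀ k, SymH 5 0 n (G k)) ∧
      (∀ l, OkQ 7 5 (C l)) ∧ ¬ (5 : ℤ) ∣ Matrix.det (Matrix.of fun k l => evc 1 (C l) (G k)) := by
  choose Cw hCw hCe using evQ_evc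
  have h1 : ∀ t : I, ∃ G : ℤ → ℤ → ℤ, SymH 5 0 n G ∧
      (((evc 1 (Cw t.1.1 t.1.2.1 t.1.2.2) G : ℤ) : ZMod 5) ≠ 0) ∧
      ∀ c i j, c ≤ 7 → (((evc 1 (Cw c i j) G : ℤ) : ZMod 5) ≠ 0 →
        (dgQ c i j < dgQ t.1.1 t.1.2.1 t.1.2.2 ∨ (dgQ c i j = dgQ t.1.1 t.1.2.1 t.1.2.2 ∧
          (rhQ c i j < rhQ t.1.1 t.1.2.1 t.1.2.2 ∨ (rhQ c i j = rhQ t.1.1 t.1.2.1 t.1.2.2 ∧
            c = t.1.1))))) := by
    intro t
    obtain ⟨hc, ha, hb⟩ := hI t.1 t.2
    obtain ⟨g, hg, hg1, hg2⟩ := hTri r s t.1.1 t.1.2.1 t.1.2.2 hc ha hb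
    obtain ⟨G, hG, hGe⟩ := hLif r s g hg
    have hs := G7.sym_Gi (p := 5) (by norm_num) (by norm_num) hG
    rw [hn] at hs
    have hev : ∀ c i j, ((evc 1 (Cw c i j) (Gi 5 r G) : ℤ) : ZMod 5) = evQ (5 ^ r) g c i j := by
      intro c i j
      rw [evc_Gi (q := 7) (p := 5) (by norm_num) r hG.1 _ (hCw _ _ _), ← hCe]
      exact_mod_cast hGe c i j
    refine ⟨Gi 5 r G, hs, ?_, ?_⟩
    · rw [hev]
      exact hg1
    · intro c i j hc1 hij
      apply hg2 c i j hc1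
      rw [hev] at hij
      exact hij
  choose G hS hd hM using h1
  let M : Matrix I I ℤ := Matrix.of fun t u => evc 1 (Cw u.1.1 u.1.2.1 u.1.2.2) (G t)
  have hdet : ((M.det : ℤ) : ZMod 5) ≠ 0 := by
    refine unit_det_lex (by norm_num)
      (fun t : I => dgQ t.1.1 t.1.2.1 t.1.2.2)
      (fun t : I => rhQ t.1.1 t.1.2.1 t.1.2.2) (fun t : I => t.1.1) ?_ M
      (fun t => hd t) (fun t u htu => ?_)
    · intro t u h2 h3 h4
      obtain ⟨e1, e2, e3⟩ := inj h2 h3 h4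
      exact Subtype.ext (Prod.ext e1 (Prod.ext e2 e3))
    · rcases hM t _ _ _ (hI u.1 u.2).1 htu with h | ⟨h, h' | ⟨h', h''⟩⟩
      · exact Or.inl h
      · exact Or.inr ⟨h, Or.inl h'⟩
      · exact Or.inr ⟨h, Or.inr ⟨h', h''.le⟩⟩
  let e : Fin N ≃ I := (I.equivFinOfCardEq hN).symm
  refine ⟨fun k => G (e k), fun l => Cw (e l).1.1 (e l).1.2.1 (e l).1.2.2, fun k => hS (e k),
    fun l => hCw _ _ _, ?_⟩
  have h2 : (Matrix.of fun k l => evc 1 (Cw (e l).1.1 (e l).1.2.1 (e l).1.2.2) (G (e k))) =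
      M.submatrix e e := rfl
  rw [h2, Matrix.det_submatrix_equiv_self]
  intro h3
  exact hdet ((ZMod.intCast_zmod_eq_zero_iff_dvd _ 5).2 (by exact_mod_cast h3))

end B75

open B75 in
/-- BAS for the levels `7 * 5^n`. -/
theorem hBas75 : TTri → TLif → TCnt → BasH 5 6 ddQ := by
  intro hTri hLif hCnt n hn
  rcases Nat.even_or_odd' n with ⟨k, hk | hk⟩
  · subst hk
    refine core k (k - 1) _ _ _ ?_ (hCnt.1 k (by omega)) (by omega) hTri hLif
    intro t ht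
    have h := Finset.mem_filter.1 ht
    have h0 := Finset.mem_range.1 (Finset.mem_product.1 h.1).1
    exact ⟨by omega, h.2.1, h.2.2⟩
  · subst hk
    refine core k k _ _ _ ?_ (hCnt.2 k (by omega)) (by omega) hTri hLif
    intro t ht
    have h := Finset.mem_filter.1 ht
    have h0 := Finset.mem_range.1 (Finset.mem_product.1 h.1).1
    exact ⟨by omega, h.2.1, h.2.2⟩

end Pool.Agent.Helper76.Bq
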