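import Pool.Agent.Helper76.Bq.Gi1

/-!
# Operators given by lists of words
-/

set_option autoImplicit false

namespace Pool.Agent.Helper76.Bq

open Pool.Agent.Helper14.CV (Homog EqC act Tl)
open Pool.Agent.Helper28.WK (Tw evw)
open Pool.Agent.Helper28.TH (OkH)

theorem wq_zero (q p : ℕ) : WQ q p (fun R _ _ _ => (0 : ℤ → ℤ → R)) :=
  ⟨[], fun c hc => absurd hc (by simp), fun R _ m G x y => by simp⟩

theorem wq_Tw {q p : ℕ} (ls : List ℕ) (hl : OkH q p ls)
    {A : ∀ (R : Type) [AddCommGroup R], ℤ → (ℤ → ℤ → R) → (ℤ → ℤ → R)}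
    (hA : WQ q p A) : WQ q p (fun R _ m G => Tw m ls (A R m G)) := by
  induction ls with
  | nil => exact hA
  | cons l ls ih =>
    have h := hl l List.mem_cons_self
    exact wq_Tl l h.1 h.2.1 h.2.2 (ih fun l' hl' => hl l' (List.mem_cons_of_mem _ hl'))

theorem wq_list {q p : ℕ} (W : List (ℤ × List ℕ)) (hW : OkQ q p W)
    {A : ∀ (R : Type) [AddCommGroup R], ℤ → (ℤ → ℤ → R) → (ℤ → ℤ → R)}
    (hA : WQ q p A) : WQ q p (fun R _ m G => (W.map fun t => t.1 • Tw m t.2 (A R m G)).sum) := by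
  induction W with
  | nil => exact wq_zero q p
  | cons t W ih =>
    have h := wq_add (wq_smul t.1 (wq_Tw t.2 (hW t List.mem_cons_self) hA))
      (ih fun c hc => hW c (List.mem_cons_of_mem _ hc))
    simp only [List.map_cons, List.sum_cons]
    exact h

end Pool.Agent.Helper76.Bq
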