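import Pool.Agent.Helper76.TL.Wo
import Pool.Agent.Helper28.TH.Defs

/-!
# Operators given by words in the `T_l`, `l ≠ p, q`; transport of values; a determinant lemma
-/

set_option autoImplicit false

namespace Pool.Agent.Helper76.Bq

open Pool.Agent.Helper14.CV (Homog EqC act Tl)
open Pool.Agent.Helper28.WK (Tw evw)
open Pool.Agent.Helper28.TH (OkH)
open Pool.Agent.Helper79.S7 (evc)
open Pool.Agent.Helper76.TL.Wo (Gi unit_det)

/-- All words are words in the `T_l`, `l ≠ p`, `l ≠ q`. -/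
def OkQ (q p : ℕ) (C : List (ℤ × List ℕ)) : Prop := ∀ c ∈ C, OkH q p c.2

private lemma ppos {p : ℕ} (hp : 0 < p) (r : ℕ) : ((p : ℤ) ^ r) ≠ 0 :=
  pow_ne_zero r (by exact_mod_cast hp.ne')

private lemma Tl_Gi (p l r : ℕ) (G : ℤ → ℤ → ℤ) :
    Tl l 1 (Gi p r G) = Gi p r (Tl l ((p : ℤ) ^ r) G) := by
  funext x y
  simp only [Tl, Gi]
  congr 1
  · congr 1
    ring
  · refine Finset.sum_congr rfl ?_
    intro j _
    congr 1
    ring

private lemma homog_Tl {G : ℤ → ℤ → ℤ} (l : ℕ) (hl : 0 < l) (m : ℤ) (h : Homog G) :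
    Homog (Tl l m G) := by
  intro k p q hk hpq
  have hl0 : (l : ℤ) ≠ 0 := by exact_mod_cast hl.ne'
  simp only [Tl]
  congr 1
  · have e := h k (l * p) q hk (by
      rcases hpq with h0 | h0
      · exact Or.inl (mul_ne_zero hl0 h0)
      · exact Or.inr h0)
    rw [← e]
    congr 1
    ring
  · refine Finset.sum_congr rfl ?_
    intro j _
    have e := h k (p + m * j * q) (l * q) hk (by
      by_cases hq : q = 0
      · left
        rcases hpq with h0 | h0
        · rw [hq, mul_zero, add_zero]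
          exact h0
        · exact absurd hq h0
      · exact Or.inr (mul_ne_zero hl0 hq))
    rw [← e]
    congr 1
    · ring
    · ring

private lemma Tw_Gi (p : ℕ) (ls : List ℕ) (r : ℕ) (G : ℤ → ℤ → ℤ) :
    Tw 1 ls (Gi p r G) = Gi p r (Tw ((p : ℤ) ^ r) ls G) := by
  induction ls with
  | nil => rfl
  | cons l ls ih => rw [Tw, Tw, ih, Tl_Gi]

private lemma homog_Tw {q p : ℕ} {G : ℤ → ℤ → ℤ} (h : Homog G) (m : ℤ) (ls : List ℕ) (hl : OkH q p ls) :
    Homog (Tw m ls G) := by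
  induction ls with
  | nil => exact h
  | cons l ls ih =>
    rw [Tw]
    exact homog_Tl l (hl l List.mem_cons_self).1.pos m
      (ih fun l' hl' => hl l' (List.mem_cons_of_mem _ hl'))

private lemma evw_Gi {q p : ℕ} (hp : 0 < p) (r : ℕ) {G : ℤ → ℤ → ℤ} (hG : Homog G) (ls : List ℕ)
    (hl : OkH q p ls) : evw 1 ls (Gi p r G) = evw ((p : ℤ) ^ r) ls G := by
  unfold evw
  rw [Tw_Gi]
  have e := homog_Tw hG ((p : ℤ) ^ r) ls hl ((p : ℤ) ^ r) 1 0 (ppos hp r) (Or.inl one_ne_zero)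
  rw [mul_zero] at e
  simp only [Gi]
  rw [mul_zero, e]

/-- Values of integer combinations of words. -/
theorem evc_Gi {q p : ℕ} (hp : 0 < p) (r : ℕ) {G : ℤ → ℤ → ℤ} (hG : Homog G)
    (C : List (ℤ × List ℕ)) (hC : OkQ q p C) : evc 1 C (Gi p r G) = evc ((p : ℤ) ^ r) C G := by
  unfold evc
  congr 1
  refine List.map_congr_left fun c hc => ?_
  rw [evw_Gi hp r hG c.2 (hC c hc)]

/-! ### word operators -/

/-- Operators given by the same integer combination of words for all groups. -/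
def WQ (q p : ℕ) (A : ∀ (R : Type) [AddCommGroup R], ℤ → (ℤ → ℤ → R) → (ℤ → ℤ → R)) : Prop :=
  ∃ C : List (ℤ × List ℕ), OkQ q p C ∧ ∀ (R : Type) [AddCommGroup R] (m : ℤ) (G : ℤ → ℤ → R)
    (x y : ℤ), A R m G x y = (C.map fun c => c.1 • Tw m c.2 G x y).sum

theorem wq_id (q p : ℕ) : WQ q p (fun _ _ _ G => G) := by
  refine ⟨[(1, [])], ?_, ?_⟩
  · intro c hc l hl
    rw [List.mem_singleton] at hc
    rw [hc] at hl
    exact absurd hl (by simp)
  · intro R _ m G x y
    simp [Tw]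

theorem wq_add {q p : ℕ} {A B : ∀ (R : Type) [AddCommGroup R], ℤ → (ℤ → ℤ → R) → (ℤ → ℤ → R)}
    (hA : WQ q p A) (hB : WQ q p B) : WQ q p (fun R _ m G => A R m G + B R m G) := by
  obtain ⟨C, hC, h1⟩ := hA
  obtain ⟨D, hD, h2⟩ := hB
  refine ⟨C ++ D, ?_, ?_⟩
  · intro c hc
    rcases List.mem_append.1 hc with h | h
    · exact hC c h
    · exact hD c h
  · intro R _ m G x y
    rw [List.map_append, List.sum_append, ← h1, ← h2]
    rfl

theorem wq_smul {q p : ℕ} (n : ℤ) {A : ∀ (R : Type) [AddCommGroup R], ℤ → (ℤ → ℤ → R) → (ℤ → ℤ → R)}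
    (hA : WQ q p A) : WQ q p (fun R _ m G => n • A R m G) := by
  obtain ⟨C, hC, h1⟩ := hA
  refine ⟨C.map fun c => (n * c.1, c.2), ?_, ?_⟩
  · intro c hc
    obtain ⟨d, hd, rfl⟩ := List.mem_map.1 hc
    exact hC d hd
  · intro R _ m G x y
    have h := h1 R m G x y
    show n • A R m G x y = _
    rw [h, List.map_map]
    clear h h1 hC
    induction C with
    | nil => simp
    | cons c C ih =>
      rw [List.map_cons, List.map_cons, List.sum_cons, List.sum_cons, smul_add, ih]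
      simp only [Function.comp_apply]
      rw [mul_smul]

theorem wq_neg {q p : ℕ} {A : ∀ (R : Type) [AddCommGroup R], ℤ → (ℤ → ℤ → R) → (ℤ → ℤ → R)}
    (hA : WQ q p A) : WQ q p (fun R _ m G => -A R m G) := by
  have h := wq_smul (-1) hA
  simp only [neg_smul, one_smul] at h
  exact h

theorem wq_sub {q p : ℕ} {A B : ∀ (R : Type) [AddCommGroup R], ℤ → (ℤ → ℤ → R) → (ℤ → ℤ → R)}
    (hA : WQ q p A) (hB : WQ q p B) : WQ q p (fun R _ m G => A R m G - B R m G) := by
  have h := wq_add hA (wq_neg hB)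
  simp only [← sub_eq_add_neg] at h
  exact h

theorem wq_Tl {q p : ℕ} (l : ℕ) (hl : l.Prime) (hlp : l ≠ p) (hlq : l ≠ q)
    {A : ∀ (R : Type) [AddCommGroup R], ℤ → (ℤ → ℤ → R) → (ℤ → ℤ → R)}
    (hA : WQ q p A) : WQ q p (fun R _ m G => Tl l m (A R m G)) := by
  obtain ⟨C, hC, h1⟩ := hA
  refine ⟨C.map fun c => (c.1, l :: c.2), ?_, ?_⟩
  · intro c hc
    obtain ⟨d, hd, rfl⟩ := List.mem_map.1 hc
    intro l' hl'
    rcases List.mem_cons.1 hl' with h | h
    · rw [h]
      exact ⟨hl, hlp, hlq⟩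
    · exact hC d hd l' h
  · intro R _ m G x y
    rw [List.map_map]
    show A R m G (l * x) y + ∑ j ∈ Finset.range l, A R m G (x + m * j * y) (l * y) = _
    have e : ∀ x y : ℤ, A R m G x y = (C.map fun c => c.1 • Tw m c.2 G x y).sum := h1 R m G
    simp only [e]
    clear e h1 hC
    induction C with
    | nil => simp
    | cons c C ih =>
      simp only [List.map_cons, List.sum_cons, Finset.sum_add_distrib] at ih ⊢
      rw [← ih]
      simp only [Function.comp_apply, Tw, Tl, smul_add, Finset.smul_sum]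
      abel

theorem wq_iter {q p : ℕ} {B : ∀ (R : Type) [AddCommGroup R], ℤ → (ℤ → ℤ → R) → (ℤ → ℤ → R)}
    (hB : ∀ A : ∀ (R : Type) [AddCommGroup R], ℤ → (ℤ → ℤ → R) → (ℤ → ℤ → R), WQ q p A →
      WQ q p (fun R _ m G => B R m (A R m G)))
    {A : ∀ (R : Type) [AddCommGroup R], ℤ → (ℤ → ℤ → R) → (ℤ → ℤ → R)} (hA : WQ q p A) (i : ℕ) :
    WQ q p (fun R _ m G => (B R m)^[i] (A R m G)) := by
  induction i with
  | zero => exact hA
  | succ i ih =>
    have h := hB _ ih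
    simp only [← Function.iterate_succ_apply'] at h
    exact h

/-- The value `A G ∞ - A G 0` is an integer combination of values at words. -/
theorem wq_ev {q p : ℕ} {A : ∀ (R : Type) [AddCommGroup R], ℤ → (ℤ → ℤ → R) → (ℤ → ℤ → R)}
    (hA : WQ q p A) : ∃ C : List (ℤ × List ℕ), OkQ q p C ∧
    ∀ (R : Type) [AddCommGroup R] (m : ℤ) (G : ℤ → ℤ → R), A R m G 1 0 - A R m G 0 1 = evc m C G := by
  obtain ⟨C, hC, h⟩ := hA
  refine ⟨C, hC, ?_⟩
  intro R _ m G
  unfold evc evw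
  have h10 : A R m G 1 0 = _ := h R m G 1 0
  have h01 : A R m G 0 1 = _ := h R m G 0 1
  rw [h10, h01]
  clear h10 h01 h hC
  induction C with
  | nil => simp
  | cons c C ih =>
    rw [List.map_cons, List.map_cons, List.map_cons, List.sum_cons, List.sum_cons,
      List.sum_cons, ← ih, smul_sub]
    abel

/-! ### determinants -/

private lemma key_lt {a b c d B : ℕ} (h : a < b) (hc : c < B) : a * B + c < b * B + d := by
  have h1 : (a + 1) * B ≤ b * B := Nat.mul_le_mul_right B h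
  rw [add_mul, one_mul] at h1
  omega

/-- A matrix which is triangular modulo the prime `p` for the lexicographic order of three keys has determinant prime to `p`. -/
theorem unit_det_lex {p : ℕ} (hp : p.Prime) {ι : Type} [Fintype ι] [DecidableEq ι] (k1 k2 k3 : ι → ℕ)
    (hinj : ∀ t u, k1 t = k1 u → k2 t = k2 u → k3 t = k3 u → t = u) (M : Matrix ι ι ℤ)
    (hd : ∀ t, ((M t t : ℤ) : ZMod p) ≠ 0)
    (hM : ∀ t u, ((M t u : ℤ) : ZMod p) ≠ 0 →
      k1 u < k1 t ∨ (k1 u = k1 t ∧ (k2 u < k2 t ∨ (k2 u = k2 t ∧ k3 u ≤ k3 t)))) :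
    ((M.det : ℤ) : ZMod p) ≠ 0 := by
  obtain ⟨B2, hB2⟩ : ∃ B : ℕ, ∀ t, k2 t < B := ⟨(∑ t, k2 t) + 1, fun t =>
    Nat.lt_succ_of_le (Finset.single_le_sum (f := k2) (fun _ _ => Nat.zero_le _) (Finset.mem_univ t))⟩
  obtain ⟨B3, hB3⟩ : ∃ B : ℕ, ∀ t, k3 t < B := ⟨(∑ t, k3 t) + 1, fun t =>
    Nat.lt_succ_of_le (Finset.single_le_sum (f := k3) (fun _ _ => Nat.zero_le _) (Finset.mem_univ t))⟩
  refine unit_det hp (fun t => (k1 t * B2 + k2 t) * B3 + k3 t) (fun _ => 0) (fun _ => 0) ?_ M hd ?_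
  · intro t u h _ _
    have h : (k1 t * B2 + k2 t) * B3 + k3 t = (k1 u * B2 + k2 u) * B3 + k3 u := h
    have e1 : k1 t * B2 + k2 t = k1 u * B2 + k2 u := by
      rcases Nat.lt_trichotomy (k1 t * B2 + k2 t) (k1 u * B2 + k2 u) with h1 | h1 | h1
      · exact absurd h (key_lt (d := k3 u) h1 (hB3 t)).ne
      · exact h1
      · exact absurd h (key_lt (d := k3 t) h1 (hB3 u)).ne'
    have e2 : k3 t = k3 u := by
      rw [e1] at h
      omega
    have e3 : k1 t = k1 u := by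
      rcases Nat.lt_trichotomy (k1 t) (k1 u) with h1 | h1 | h1
      · exact absurd e1 (key_lt (d := k2 u) h1 (hB2 t)).ne
      · exact h1
      · exact absurd e1 (key_lt (d := k2 t) h1 (hB2 u)).ne'
    refine hinj t u e3 ?_ e2
    rw [e3] at e1
    omega
  · intro t u h
    have h1 : (k1 u * B2 + k2 u) * B3 + k3 u ≤ (k1 t * B2 + k2 t) * B3 + k3 t := by
      rcases hM t u h with h2 | ⟨h2, h3 | ⟨h3, h4⟩⟩
      · exact (key_lt (key_lt h2 (hB2 u)) (hB3 u)).le
      · rw [h2]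
        exact (key_lt (by omega) (hB3 u)).le
      · rw [h2, h3]
        omega
    rcases Nat.lt_or_ge ((k1 u * B2 + k2 u) * B3 + k3 u) ((k1 t * B2 + k2 t) * B3 + k3 t) with h2 | h2
    · exact Or.inl h2
    · exact Or.inr ⟨le_antisymm h1 h2, rfl, le_refl _⟩

end Pool.Agent.Helper76.Bq
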